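import Pool.Agent.Helper87.MD.Goals

/-!
# Project MD (MP_c307ca_nt): the final assembly
-/

set_option autoImplicit false

open Finset Filter
open scoped Classical

namespace Pool.Agent.Helper55.MD

open Pool.Agent.Helper98.Lang Pool.Agent.Helper87.MD Pool.Agent.Helper92.Avg

lemma phi_eq (ε : ℝ) {q : ℕ} (hq : 2 ≤ q) :
    phi ε q = 1 / ((q : ℝ) * Real.log (q : ℝ) ^ (1 + ε)) := by
  unfold phi
  rw [max_eq_left hq]

lemma phi_le {ε ε' Q : ℝ} (hε'0 : 0 ≤ ε') (hQ : 2 ≤ Q) {q : ℕ} (hq : 2 ≤ q) (hQq : Q ≤ q) :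
    phi ε q ≤ phi (ε - ε') q / Real.log Q ^ ε' := by
  have hlogQ : 0 < Real.log Q := Real.log_pos (by linarith)
  rw [phi_eq ε hq, phi_eq (ε - ε') hq]
  have hq2 : (2 : ℝ) ≤ q := by exact_mod_cast hq
  have hlq : 0 < Real.log (q : ℝ) := Real.log_pos (by linarith)
  have h8 : Real.log (q : ℝ) ^ (1 + ε) =
      Real.log (q : ℝ) ^ (1 + (ε - ε')) * Real.log (q : ℝ) ^ ε' := by
    rw [← Real.rpow_add hlq]; ring_nf
  have h9 : Real.log Q ^ ε' ≤ Real.log (q : ℝ) ^ ε' :=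
    Real.rpow_le_rpow hlogQ.le (Real.log_le_log (by linarith) hQq) hε'0
  have h10 : 0 < Real.log (q : ℝ) ^ (1 + (ε - ε')) := Real.rpow_pos_of_pos hlq _
  have h11 : 0 < Real.log Q ^ ε' := Real.rpow_pos_of_pos hlogQ _
  rw [h8, div_div]
  apply div_le_div_of_nonneg_left (by norm_num) (by positivity)
  calc (q : ℝ) * Real.log (q : ℝ) ^ (1 + (ε - ε')) * Real.log Q ^ ε'
      ≤ (q : ℝ) * Real.log (q : ℝ) ^ (1 + (ε - ε')) * Real.log (q : ℝ) ^ ε' :=
        mul_le_mul_of_nonneg_left h9 (by positivity)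
    _ = _ := by ring

/-- the pairs `(a, b)` counted for one `q` -/
noncomputable def PS (ξ c ε : ℝ) (s M d q : ℕ) : Finset (ℕ × ℕ) :=
  ((Icc 1 M) ×ˢ (range d)).filter (fun x : ℕ × ℕ => ∃ p : ℤ,
    |((s : ℝ) * x.1 * ξ + x.2) / d - (p : ℝ) / q| ≤ c / ((q : ℝ) ^ 2 * LL ε q))

lemma one_q (hC : CntStmt) {ξ c ε : ℝ} {s M d q : ℕ} (hc : 0 < c) (hd : 1 ≤ d) (hq : 2 ≤ q) :
    ((PS ξ c ε s M d q).card : ℝ)
    ≤ 4 * c * ((M * d : ℕ) : ℝ) * phi ε q + (Nat.gcd d q : ℝ) * WW ξ c ε s M d q := by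
  have h1 : (PS ξ c ε s M d q).card
      = ∑ a ∈ Icc 1 M, ((range d).filter (fun b : ℕ => ∃ p : ℤ,
      |((s : ℝ) * a * ξ + b) / d - (p : ℝ) / q| ≤ c / ((q : ℝ) ^ 2 * LL ε q))).card := by
    unfold PS
    rw [Finset.card_filter, Finset.sum_product]
    refine Finset.sum_congr rfl fun a _ => ?_
    rw [Finset.card_filter]
  have h2 : ∀ a ∈ Icc 1 M, (((range d).filter (fun b : ℕ => ∃ p : ℤ,
      |((s : ℝ) * a * ξ + b) / d - (p : ℝ) / q| ≤ c / ((q : ℝ) ^ 2 * LL ε q))).card : ℝ) ≤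
      4 * c * d / (q * LL ε q) + (Nat.gcd d q : ℝ) *
      (if et c ε d q < 1 / 2 ∧ nd ((s : ℝ) * a * ((q / Nat.gcd d q : ℕ) : ℝ) * ξ) ≤ et c ε d q
        then 1 else 0) := by
    intro a _
    have h3 := hC ((s : ℝ) * a * ξ) c ε d q hc hd hq
    have h4 : (s : ℝ) * a * ξ * ((q / Nat.gcd d q : ℕ) : ℝ)
        = (s : ℝ) * a * ((q / Nat.gcd d q : ℕ) : ℝ) * ξ := by ring
    rw [h4] at h3
    exact h3
  rw [h1, Nat.cast_sum]
  refine (Finset.sum_le_sum h2).trans (le_of_eq ?_)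
  rw [Finset.sum_add_distrib, ← Finset.mul_sum, Finset.sum_const, nsmul_eq_mul, Nat.card_Icc,
    WW, Finset.card_filter, phi_eq ε hq, Nat.add_sub_cancel]
  simp only [LL]
  push_cast
  ring

theorem fin (hR : GRoth) (hC : CntStmt) (hS : SmqStmt) (hL : LrgStmt) : MainStmt := by
  intro ε ε' hε hε'0 hε'
  have hgap0 : 0 < ε - ε' := by linarith
  have hZ := Zsum_nonneg (ε - ε')
  refine ⟨16 * Zsum (ε - ε') + 2, ?_⟩
  intro ξ hξ hirr c A α0 hc hα0
  have hRoth := hR ξ hξ hirr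
  set α : ℝ := max α0 0 with hα
  have hα1 : α < 1 := max_lt hα0 one_pos
  have hαn : 0 ≤ α := le_max_right _ _
  set κ : ℝ := (1 - α) / 8 with hκ
  have hκ0 : 0 < κ := by rw [hκ]; linarith
  set ε2 : ℝ := (ε + ε') / 2 with hε2
  obtain ⟨N1, hN1⟩ := hS ξ hRoth ε c α hε hc hαn hα1
  obtain ⟨N2, hN2⟩ := hL ξ hRoth ε ε2 κ A c α hε (by rw [hε2]; linarith) hκ0 hc hαn hα1
  set B : ℝ := max A 1 with hB
  have hB1 : 1 ≤ B := le_max_right _ _
  have hgap : 0 < ε2 - ε' := by rw [hε2]; linarith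
  have htend : Tendsto (fun N : ℕ => Real.log N ^ (ε2 - ε')) atTop atTop :=
    (tendsto_rpow_atTop hgap).comp
      (Real.tendsto_log_atTop.comp tendsto_natCast_atTop_atTop)
  obtain ⟨N3, hN3⟩ := eventually_atTop.1 (htend.eventually_ge_atTop (B ^ ε' / c))
  have hBe : 0 < B ^ ε' := Real.rpow_pos_of_pos (by linarith) _
  have hlim : ∀ᶠ N : ℕ in atTop, B ^ ε' * Real.log (N : ℝ) ^ ε' ≤ c * (N : ℝ) ^ κ := by
    have h1 := (isLittleO_log_rpow_rpow_atTop ε' hκ0).bound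
      (show 0 < c / B ^ ε' by positivity)
    have h2 := tendsto_natCast_atTop_atTop.eventually (h1.and (eventually_ge_atTop (1 : ℝ)))
    filter_upwards [h2] with N hN
    obtain ⟨h3, h4⟩ := hN
    have h5 : 0 ≤ Real.log (N : ℝ) := Real.log_nonneg h4
    rw [Real.norm_of_nonneg (Real.rpow_nonneg h5 _),
      Real.norm_of_nonneg (Real.rpow_nonneg (by linarith) _)] at h3
    calc B ^ ε' * Real.log (N : ℝ) ^ ε' ≤ B ^ ε' * (c / B ^ ε' * (N : ℝ) ^ κ) :=
          mul_le_mul_of_nonneg_left h3 hBe.le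
      _ = c * (N : ℝ) ^ κ := by field_simp
  obtain ⟨N4, hN4⟩ := eventually_atTop.1 hlim
  refine ⟨max (max N1 3) (max N2 (max N3 N4)), ?_⟩
  intro M d s hN hs hsK Q hQ
  have hNN1 : N1 ≤ M * d := le_trans (le_trans (le_max_left _ _) (le_max_left _ _)) hN
  have hN3' : 3 ≤ M * d := le_trans (le_trans (le_max_right _ _) (le_max_left _ _)) hN
  have hNN2 : N2 ≤ M * d := le_trans (le_trans (le_max_left _ _) (le_max_right _ _)) hN
  have hNN3 : N3 ≤ M * d := le_trans (le_trans (le_trans (le_max_left _ _) (le_max_right _ _))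
    (le_max_right _ _)) hN
  have hNN4 : N4 ≤ M * d := le_trans (le_trans (le_trans (le_max_right _ _) (le_max_right _ _))
    (le_max_right _ _)) hN
  have hcast : ((M : ℝ) * d) = ((M * d : ℕ) : ℝ) := by push_cast; ring
  rw [hcast] at hsK ⊢
  have hd : 1 ≤ d := by
    rcases Nat.eq_zero_or_pos d with h | h
    · subst h; simp at hN3'
    · exact h
  have h3 := hN3 _ hNN3
  have h4 := hN4 _ hNN4
  set K : ℝ := ((M * d : ℕ) : ℝ) with hK
  have hNr : (3 : ℝ) ≤ K := by rw [hK]; exact_mod_cast hN3'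
  have hKpos : (0 : ℝ) < K := by linarith
  have hone : (1 : ℝ) ≤ K := by linarith
  have hlogN : 0 < Real.log K := Real.log_pos (by linarith)
  have hlogQ : 0 < Real.log Q := Real.log_pos (by linarith)
  have hlQpos : 0 < Real.log Q ^ ε' := Real.rpow_pos_of_pos hlogQ _
  have hsα : (s : ℝ) ≤ K ^ α :=
    hsK.trans (Real.rpow_le_rpow_of_exponent_le hone (le_max_left _ _))
  -- the set of all pairs
  let I : Finset ℕ := (Icc 2 ⌊K ^ A⌋₊).filter (fun q : ℕ => Q ≤ q)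
  set T : Set (ℕ × ℕ) := {x : ℕ × ℕ | 1 ≤ x.1 ∧ x.1 ≤ M ∧ x.2 < d ∧ ∃ (p : ℤ) (q : ℕ), Q ≤ q ∧
        (q : ℝ) ≤ K ^ A ∧ |((s : ℝ) * x.1 * ξ + x.2) / d - (p : ℝ) / (q : ℝ)|
          ≤ c / ((q : ℝ) ^ 2 * Real.log (q : ℝ) ^ (1 + ε))} with hT
  have hsub : T ⊆ ((I.biUnion (fun q => PS ξ c ε s M d q) : Finset (ℕ × ℕ)) : Set (ℕ × ℕ)) := by
    rintro ⟨a, b⟩ ⟨ha1, haM, hbd, p, q, hQq, hqA, hap⟩
    rw [Finset.mem_coe, Finset.mem_biUnion]
    have hq2 : (2 : ℝ) ≤ q := hQ.trans hQq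
    refine ⟨q, Finset.mem_filter.2 ⟨Finset.mem_Icc.2 ⟨by exact_mod_cast hq2, Nat.le_floor hqA⟩,
      hQq⟩, ?_⟩
    exact Finset.mem_filter.2 ⟨Finset.mem_product.2 ⟨Finset.mem_Icc.2 ⟨ha1, haM⟩,
      Finset.mem_range.2 hbd⟩, p, hap⟩
  have hcard : (T.ncard : ℝ) ≤ ∑ q ∈ I, ((PS ξ c ε s M d q).card : ℝ) := by
    have h1 := Set.ncard_le_ncard hsub (Finset.finite_toSet _)
    rw [Set.ncard_coe_finset] at h1
    have h2 := h1.trans Finset.card_biUnion_le
    exact_mod_cast h2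
  rcases le_or_gt Q (K ^ B) with hQB | hQB
  swap
  · -- no denominators at all
    have hempty : T = ∅ := by
      rw [hT]
      ext x
      simp only [Set.mem_setOf_eq, Set.mem_empty_iff_false, iff_false]
      rintro ⟨-, -, -, p, q, hq2, hqA, -⟩
      have h5 : K ^ A ≤ K ^ B := Real.rpow_le_rpow_of_exponent_le hone (le_max_left _ _)
      linarith
    rw [hempty, Set.ncard_empty]
    have : 0 ≤ (16 * Zsum (ε - ε') + 2) * c * K / Real.log Q ^ ε' := by positivity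
    exact_mod_cast this
  -- the logarithm of `Q`
  have h6 : Real.log Q ^ ε' ≤ B ^ ε' * Real.log K ^ ε' := by
    have h5 : Real.log Q ≤ B * Real.log K := by
      have := Real.log_le_log (by linarith) hQB
      rwa [Real.log_rpow hKpos] at this
    rw [← Real.mul_rpow (by linarith) hlogN.le]
    exact Real.rpow_le_rpow hlogQ.le h5 hε'0
  have hlarge : K / Real.log K ^ ε2 ≤ c * K / Real.log Q ^ ε' := by
    have h7 : Real.log K ^ ε2 = Real.log K ^ ε' * Real.log K ^ (ε2 - ε') := by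
      rw [← Real.rpow_add hlogN]; ring_nf
    have h8 : B ^ ε' ≤ c * Real.log K ^ (ε2 - ε') := by
      rw [div_le_iff₀ hc] at h3
      linarith
    have h9 : 0 < Real.log K ^ ε' := Real.rpow_pos_of_pos hlogN _
    have h10 : 0 < Real.log K ^ ε2 := Real.rpow_pos_of_pos hlogN _
    rw [div_le_div_iff₀ h10 hlQpos]
    calc K * Real.log Q ^ ε' ≤ K * (B ^ ε' * Real.log K ^ ε') :=
          mul_le_mul_of_nonneg_left h6 hKpos.le
      _ = B ^ ε' * (K * Real.log K ^ ε') := by ring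
      _ ≤ c * Real.log K ^ (ε2 - ε') * (K * Real.log K ^ ε') :=
          mul_le_mul_of_nonneg_right h8 (by positivity)
      _ = c * K * Real.log K ^ ε2 := by rw [h7]; ring
  have hsmall : K ^ κ * K ^ (1 - (1 - α) / 4) ≤ c * K / Real.log Q ^ ε' := by
    rw [le_div_iff₀ hlQpos]
    have h7 : K ^ κ * (K ^ κ * K ^ (1 - (1 - α) / 4)) = K := by
      rw [← Real.rpow_add hKpos, ← Real.rpow_add hKpos]
      have : κ + (κ + (1 - (1 - α) / 4)) = 1 := by rw [hκ]; ring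
      rw [this, Real.rpow_one]
    calc K ^ κ * K ^ (1 - (1 - α) / 4) * Real.log Q ^ ε'
        ≤ K ^ κ * K ^ (1 - (1 - α) / 4) * (c * K ^ κ) :=
          mul_le_mul_of_nonneg_left (h6.trans h4) (by positivity)
      _ = c * (K ^ κ * (K ^ κ * K ^ (1 - (1 - α) / 4))) := by ring
      _ = c * K := by rw [h7]
  -- the first terms
  have hIphi : ∀ J : Finset ℕ, J ⊆ I → ∑ q ∈ J, phi ε q ≤ Zsum (ε - ε') / Real.log Q ^ ε' := by
    intro J hJ
    calc ∑ q ∈ J, phi ε q ≤ ∑ q ∈ J, phi (ε - ε') q / Real.log Q ^ ε' := by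
          refine Finset.sum_le_sum fun q hq => ?_
          obtain ⟨hq', hQq⟩ := Finset.mem_filter.1 (hJ hq)
          exact phi_le hε'0 hQ (Finset.mem_Icc.1 hq').1 hQq
      _ = (∑ q ∈ J, phi (ε - ε') q) / Real.log Q ^ ε' := by rw [Finset.sum_div]
      _ ≤ Zsum (ε - ε') / Real.log Q ^ ε' :=
          div_le_div_of_nonneg_right ((summable_phi hgap0).sum_le_tsum _
            (fun q _ => (phi_pos (ε - ε') q).le)) hlQpos.le
  have hI2 : ∀ q ∈ I, 2 ≤ q := fun q hq => (Finset.mem_Icc.1 (Finset.mem_filter.1 hq).1).1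
  -- the sum of the second terms
  have hW : ∑ q ∈ I, (Nat.gcd d q : ℝ) * WW ξ c ε s M d q
      ≤ 12 * c * K * (Zsum (ε - ε') / Real.log Q ^ ε') + c * K / Real.log Q ^ ε'
        + c * K / Real.log Q ^ ε' := by
    rw [← Finset.sum_filter_add_sum_filter_not I (fun q : ℕ => (q : ℝ) ≤ K ^ κ)]
    refine add_le_add ?_ ?_
    · have hterm : ∀ q ∈ I.filter (fun q : ℕ => (q : ℝ) ≤ K ^ κ),
          (Nat.gcd d q : ℝ) * WW ξ c ε s M d q ≤ 12 * c * K * phi ε q + K ^ (1 - (1 - α) / 4) := by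
        intro q hq
        obtain ⟨hqI, hqκ⟩ := Finset.mem_filter.1 hq
        have h1 := hN1 M d s q hNN1 hs hsα (hI2 q hqI) hqκ
        refine h1.trans (le_of_eq ?_)
        rw [phi_eq ε (hI2 q hqI)]
        simp only [LL]
        ring
      refine (Finset.sum_le_sum hterm).trans ?_
      rw [Finset.sum_add_distrib, ← Finset.mul_sum, Finset.sum_const, nsmul_eq_mul]
      refine add_le_add (mul_le_mul_of_nonneg_left (hIphi _ (Finset.filter_subset _ _))
        (by positivity)) ?_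
      refine le_trans (mul_le_mul_of_nonneg_right ?_ (by positivity)) hsmall
      have h31 : I.filter (fun q : ℕ => (q : ℝ) ≤ K ^ κ) ⊆ Icc 1 ⌊K ^ κ⌋₊ := by
        intro q hq
        obtain ⟨hqI, hqκ⟩ := Finset.mem_filter.1 hq
        have := hI2 q hqI
        exact Finset.mem_Icc.2 ⟨by omega, Nat.le_floor hqκ⟩
      have h32 := Finset.card_le_card h31
      rw [Nat.card_Icc, Nat.add_sub_cancel] at h32
      have h33 : ((I.filter (fun q : ℕ => (q : ℝ) ≤ K ^ κ)).card : ℝ) ≤ (⌊K ^ κ⌋₊ : ℝ) := by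
        exact_mod_cast h32
      exact h33.trans (Nat.floor_le (by positivity))
    · refine le_trans ?_ hlarge
      refine le_trans ?_ (hN2 M d s hNN2 hs hsα)
      apply Finset.sum_le_sum_of_subset_of_nonneg
      · intro q hq
        obtain ⟨hqI, hqκ⟩ := Finset.mem_filter.1 hq
        exact Finset.mem_filter.2 ⟨(Finset.mem_filter.1 hqI).1, (not_le.1 hqκ).le⟩
      · intro q _ _
        positivity
  calc (T.ncard : ℝ) ≤ ∑ q ∈ I, ((PS ξ c ε s M d q).card : ℝ) := hcard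
    _ ≤ ∑ q ∈ I, (4 * c * K * phi ε q + (Nat.gcd d q : ℝ) * WW ξ c ε s M d q) :=
        Finset.sum_le_sum fun q hq => one_q hC hc hd (hI2 q hq)
    _ = 4 * c * K * ∑ q ∈ I, phi ε q + ∑ q ∈ I, (Nat.gcd d q : ℝ) * WW ξ c ε s M d q := by
        rw [Finset.sum_add_distrib, ← Finset.mul_sum]
    _ ≤ 4 * c * K * (Zsum (ε - ε') / Real.log Q ^ ε') +
        (12 * c * K * (Zsum (ε - ε') / Real.log Q ^ ε') + c * K / Real.log Q ^ ε'
        + c * K / Real.log Q ^ ε') :=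
        add_le_add (mul_le_mul_of_nonneg_left (hIphi _ subset_rfl) (by positivity)) hW
    _ = (16 * Zsum (ε - ε') + 2) * c * K / Real.log Q ^ ε' := by ring

theorem finGoal : FinGoal := fun hR hC hS hL => fin hR hC hS hL

end Pool.Agent.Helper55.MD
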